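import Pool.Agent.H37.CNU.Stmts

/-!
# Row UNR: the relations of the coordinates of the Deligne-Lusztig curve of `SU_3`
-/

set_option autoImplicit false

namespace Pool.CND

open Finset

theorem unr_solve {Ω : Type} [Field Ω] {w0 w1 w2 a0 a1 a2 b0 b1 b2 c0 c1 c2 : Ω}
    (hdet : a0 * (b1 * c2 - b2 * c1) - a1 * (b0 * c2 - b2 * c0) + a2 * (b0 * c1 - b1 * c0) = 1)
    (h1 : w0 * a2 + w2 * a0 - w1 * a1 = 0) (h2 : w0 * b2 + w2 * b0 - w1 * b1 = 0)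
    (h3 : w0 * c2 + w2 * c0 - w1 * c1 = 0) : w0 = 0 ∧ w1 = 0 ∧ w2 = 0 := by
  refine ⟨?_, ?_, ?_⟩
  · linear_combination (-w0) * hdet + (b0 * c1 - b1 * c0) * h1 + (a1 * c0 - a0 * c1) * h2 +
      (a0 * b1 - a1 * b0) * h3
  · linear_combination (-w1) * hdet + (b0 * c2 - b2 * c0) * h1 + (a2 * c0 - a0 * c2) * h2 +
      (a0 * b2 - a2 * b0) * h3
  · linear_combination (-w2) * hdet + (b1 * c2 - b2 * c1) * h1 + (a2 * c1 - a1 * c2) * h2 +
      (a1 * b2 - a2 * b1) * h3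

/-- the relation `rel` from the others -/
theorem unr_rel {Ω : Type} [Field Ω] (t s : Ω) (X : ℕ → Fin 3 → Ω)
    (B1 : ∀ j, X j 0 * X (j + 1) 2 + X j 2 * X (j + 1) 0 - X j 1 * X (j + 1) 1 = 0)
    (B3 : ∀ j, X j 0 * X (j + 3) 2 + X j 2 * X (j + 3) 0 - X j 1 * X (j + 3) 1 = 1)
    (B50 : X 0 0 * X 5 2 + X 0 2 * X 5 0 - X 0 1 * X 5 1 = t)
    (B51 : X 1 0 * X 6 2 + X 1 2 * X 6 0 - X 1 1 * X 6 1 = s)
    (c01 : X 1 0 * X 3 1 - X 1 1 * X 3 0 = X 2 0)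
    (c12 : X 1 1 * X 3 2 - X 1 2 * X 3 1 = X 2 2)
    (c20 : X 1 2 * X 3 0 - X 1 0 * X 3 2 = -X 2 1) (i : Fin 3) :
    X 6 i - s * X 4 i + t * X 2 i - X 0 i = 0 := by
  have hdet : X 1 0 * (X 3 1 * X 5 2 - X 3 2 * X 5 1) - X 1 1 * (X 3 0 * X 5 2 - X 3 2 * X 5 0) +
      X 1 2 * (X 3 0 * X 5 1 - X 3 1 * X 5 0) = 1 := by
    linear_combination X 5 2 * c01 + X 5 0 * c12 + X 5 1 * c20 + B3 2
  have key := unr_solve (w0 := X 6 0 - s * X 4 0 + t * X 2 0 - X 0 0)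
    (w1 := X 6 1 - s * X 4 1 + t * X 2 1 - X 0 1) (w2 := X 6 2 - s * X 4 2 + t * X 2 2 - X 0 2)
    hdet (by linear_combination B51 - s * B3 1 + t * B1 1 - B1 0)
    (by linear_combination B3 3 - s * B1 3 + t * B1 2 - B3 0)
    (by linear_combination B1 5 - s * B1 4 + t * B3 2 - B50)
  obtain ⟨k0, k1, k2⟩ := key
  fin_cases i
  · exact k0
  · exact k1
  · exact k2

theorem unr_rel2 {Ω : Type} [Field Ω] (p f q : ℕ) [CharP Ω p] (hp : p.Prime) (hq : q = p ^ f)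
    (t a b c : Ω) (h1 : a * c ^ q + c * a ^ q - b ^ (q + 1) = 0)
    (h3 : a * c ^ (q ^ 3) + c * a ^ (q ^ 3) - b ^ (q ^ 3 + 1) = 1)
    (h5 : a * c ^ (q ^ 5) + c * a ^ (q ^ 5) - b ^ (q ^ 5 + 1) = t)
    (c01 : a * b ^ (q ^ 2) - b * a ^ (q ^ 2) = a ^ q)
    (c12 : b * c ^ (q ^ 2) - c * b ^ (q ^ 2) = c ^ q)
    (c20 : c * a ^ (q ^ 2) - a * c ^ (q ^ 2) = -b ^ q) (i : Fin 3) :
    (![a, b, c] : Fin 3 → Ω) i ^ (q ^ 6) - t ^ q * (![a, b, c] : Fin 3 → Ω) i ^ (q ^ 4) +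
      t * (![a, b, c] : Fin 3 → Ω) i ^ (q ^ 2) - (![a, b, c] : Fin 3 → Ω) i = 0 := by
  haveI : Fact p.Prime := ⟨hp⟩
  haveI : ExpChar Ω p := ExpChar.prime hp
  let Fr : ℕ → Ω →+* Ω := fun j => iterateFrobenius Ω p (f * j)
  have hFr : ∀ (j : ℕ) (z : Ω), Fr j z = z ^ (q ^ j) := by
    intro j z
    show iterateFrobenius Ω p (f * j) z = _
    rw [iterateFrobenius_def, pow_mul, ← hq]
  have hpp : ∀ (i j : ℕ) (z : Ω), (z ^ (q ^ i)) ^ (q ^ j) = z ^ (q ^ (i + j)) := by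
    intro i j z
    rw [← pow_mul, ← pow_add]
  have hp1 : ∀ (j : ℕ) (z : Ω), (z ^ q) ^ (q ^ j) = z ^ (q ^ (j + 1)) := fun j z => by
    rw [← pow_mul, ← pow_succ']
  rw [pow_succ b q] at h1
  rw [pow_succ b (q ^ 3)] at h3
  rw [pow_succ b (q ^ 5)] at h5
  have := unr_rel t (t ^ q)
    (fun j i => ((![a, b, c] : Fin 3 → Ω) i) ^ (q ^ j)) ?_ ?_ ?_ ?_ ?_ ?_ ?_
  · have h6 := this i
    rw [pow_zero, pow_one] at h6
    exact h6
  · intro j
    have h7 := congrArg (Fr j) h1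
    rw [map_sub, map_add, map_mul, map_mul, map_mul, map_zero] at h7
    simp only [hFr, hp1] at h7
    show a ^ (q ^ j) * c ^ (q ^ (j + 1)) + c ^ (q ^ j) * a ^ (q ^ (j + 1)) -
      b ^ (q ^ j) * b ^ (q ^ (j + 1)) = 0
    linear_combination h7
  · intro j
    have h7 := congrArg (Fr j) h3
    rw [map_sub, map_add, map_mul, map_mul, map_mul, map_one] at h7
    simp only [hFr, hpp, add_comm 3 j] at h7
    show a ^ (q ^ j) * c ^ (q ^ (j + 3)) + c ^ (q ^ j) * a ^ (q ^ (j + 3)) -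
      b ^ (q ^ j) * b ^ (q ^ (j + 3)) = 1
    linear_combination h7
  · show a ^ (q ^ 0) * c ^ (q ^ 5) + c ^ (q ^ 0) * a ^ (q ^ 5) - b ^ (q ^ 0) * b ^ (q ^ 5) = t
    rw [pow_zero, pow_one, pow_one, pow_one]
    linear_combination h5
  · have h7 := congrArg (Fr 1) h5
    rw [map_sub, map_add, map_mul, map_mul, map_mul] at h7
    simp only [hFr, hpp] at h7
    show a ^ (q ^ 1) * c ^ (q ^ 6) + c ^ (q ^ 1) * a ^ (q ^ 6) - b ^ (q ^ 1) * b ^ (q ^ 6) = t ^ q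
    rw [pow_one] at h7 ⊢
    linear_combination h7
  · have h7 := congrArg (Fr 1) c01
    rw [map_sub, map_mul, map_mul] at h7
    simp only [hFr, hpp, hp1] at h7
    exact h7
  · have h7 := congrArg (Fr 1) c12
    rw [map_sub, map_mul, map_mul] at h7
    simp only [hFr, hpp, hp1] at h7
    exact h7
  · have h7 := congrArg (Fr 1) c20
    rw [map_sub, map_mul, map_mul, map_neg] at h7
    simp only [hFr, hpp, hp1] at h7
    exact h7

theorem unr_thm : S_UNR := by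
  intro p Ω _ f q e x y u t hp hch hf hq he hu hy hue ht
  haveI : Fact p.Prime := ⟨hp⟩
  haveI : ExpChar Ω p := ExpChar.prime hp
  have hq2 : 2 ≤ q := by
    rw [hq]
    calc 2 ≤ p := hp.two_le
      _ = p ^ 1 := (pow_one p).symm
      _ ≤ p ^ f := Nat.pow_le_pow_right hp.pos hf
  let Fr : ℕ → Ω →+* Ω := fun j => iterateFrobenius Ω p (f * j)
  have hFr : ∀ (j : ℕ) (z : Ω), Fr j z = z ^ (q ^ j) := by
    intro j z
    show iterateFrobenius Ω p (f * j) z = _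
    rw [iterateFrobenius_def, pow_mul, ← hq]
  have hpp : ∀ (i j : ℕ) (z : Ω), (z ^ (q ^ i)) ^ (q ^ j) = z ^ (q ^ (i + j)) := by
    intro i j z
    rw [← pow_mul, ← pow_add]
  set v : Ω := u⁻¹ with hv
  have hv0 : v ≠ 0 := inv_ne_zero hu
  have huv : u * v = 1 := mul_inv_cancel₀ hu
  -- powers of `x`, `y`
  have hyj : ∀ j, y ^ (q ^ (j + 1)) + y ^ (q ^ j) = x ^ (q ^ (j + 1)) * x ^ (q ^ j) := by
    intro j
    have h1 := congrArg (Fr j) hy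
    rw [map_add, hFr, hFr, hFr] at h1
    have e1 : (y ^ q) ^ (q ^ j) = y ^ (q ^ (j + 1)) := by
      rw [← pow_mul, ← pow_succ']
    have e2 : (x ^ (q + 1)) ^ (q ^ j) = x ^ (q ^ (j + 1)) * x ^ (q ^ j) := by
      rw [pow_succ, mul_pow, ← pow_mul, ← pow_succ']
    rw [e1, e2] at h1
    exact h1
  have y1 := hyj 0
  have y2 := hyj 1
  have y3 := hyj 2
  have y4 := hyj 3
  have y5 := hyj 4
  simp only [zero_add, pow_zero, pow_one] at y1
  norm_num at y2 y3 y4 y5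
  -- `Δ`
  set Δ : Ω := x ^ (q ^ 2) - x with hΔ
  have hΔj : ∀ j, Δ ^ (q ^ j) = x ^ (q ^ (j + 2)) - x ^ (q ^ j) := by
    intro j
    rw [hΔ, ← hFr j, map_sub, hFr, hFr, hpp, add_comm 2 j]
  have D1 : Δ ^ q = x ^ (q ^ 3) - x ^ q := by
    have := hΔj 1
    rwa [pow_one] at this
  have D2 := hΔj 2
  have D3 := hΔj 3
  norm_num at D2 D3
  have hΔ0 : Δ ≠ 0 := by
    rw [← hue]
    exact pow_ne_zero _ hu
  -- `v ^ e Δ = 1`
  have hve : v ^ e * Δ = 1 := by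
    rw [← hue, ← mul_pow, mul_comm, huv, one_pow]
  have K1 : Δ * (v * v ^ (q ^ 2)) = v ^ q := by
    have e1 : v * v ^ (q ^ 2) = v ^ e * v ^ q := by
      rw [← pow_succ', ← pow_add, he]
    rw [e1]
    linear_combination v ^ q * hve
  have K1q : Δ ^ q * (v ^ q * v ^ (q ^ 3)) = v ^ (q ^ 2) := by
    have h1 := congrArg (Fr 1) K1
    rw [map_mul, map_mul, hFr, hFr, hFr, hFr, hpp, pow_one] at h1
    have e2 : (v ^ q) ^ q = v ^ (q ^ 2) := by rw [← pow_mul, pow_two]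
    rw [e2] at h1
    exact h1
  have K3 : Δ ^ q * Δ * (v * v ^ (q ^ 3)) = 1 := by
    have hne : v ^ (q ^ 2) ≠ 0 := pow_ne_zero _ hv0
    apply mul_left_cancel₀ hne
    linear_combination K1q + Δ ^ q * v ^ (q ^ 3) * K1
  have ht' : t = (y ^ (q ^ 5) + y - x ^ (q ^ 5) * x) * (v * v ^ (q ^ 5)) := by
    rw [ht, one_div, div_eq_mul_inv, div_eq_mul_inv, ← hv, mul_pow, pow_succ (x * v) (q ^ 5),
      mul_pow]
    ring
  have X0 : (![1 / u, x / u, y / u] : Fin 3 → Ω) 0 = v := by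
    show 1 / u = v
    rw [one_div]
  have X1 : (![1 / u, x / u, y / u] : Fin 3 → Ω) 1 = x * v := by
    show x / u = x * v
    rw [div_eq_mul_inv]
  have X2 : (![1 / u, x / u, y / u] : Fin 3 → Ω) 2 = y * v := by
    show y / u = y * v
    rw [div_eq_mul_inv]
  have c01 : v * (x * v) ^ (q ^ 2) - x * v * v ^ (q ^ 2) = v ^ q := by
    rw [mul_pow]
    linear_combination K1
  have c12 : x * v * (y * v) ^ (q ^ 2) - y * v * (x * v) ^ (q ^ 2) = (y * v) ^ q := by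
    rw [mul_pow, mul_pow, mul_pow]
    linear_combination y ^ q * K1 + (v * v ^ (q ^ 2)) * (x * y2 - (Δ + x) * y1)
  have c20 : y * v * v ^ (q ^ 2) - v * (y * v) ^ (q ^ 2) = -(x * v) ^ q := by
    rw [mul_pow, mul_pow]
    linear_combination (-x ^ q) * K1 + (v * v ^ (q ^ 2)) * (y1 - y2)
  have h1 : v * (y * v) ^ q + y * v * v ^ q - (x * v) ^ (q + 1) = 0 := by
    rw [mul_pow, mul_pow, pow_succ, pow_succ v]
    linear_combination (v * v ^ q) * y1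
  have h3 : v * (y * v) ^ (q ^ 3) + y * v * v ^ (q ^ 3) - (x * v) ^ (q ^ 3 + 1) = 1 := by
    rw [mul_pow, mul_pow, pow_succ x, pow_succ v]
    rw [D1, hΔ] at K3
    linear_combination K3 + (v * v ^ (q ^ 3)) * (y3 - y2 + y1)
  have h5 : v * (y * v) ^ (q ^ 5) + y * v * v ^ (q ^ 5) - (x * v) ^ (q ^ 5 + 1) = t := by
    rw [ht', mul_pow, mul_pow, pow_succ x, pow_succ v]
    ring
  refine ⟨⟨?_, ?_, ?_, ?_, ?_, ?_, ?_, ?_⟩, ?_⟩
  · rw [X0, X1, X2]; exact h1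
  · rw [X0, X1, X2]; exact h3
  · rw [X0, X1, X2]; exact h5
  · rw [X0, X1]; exact c01
  · rw [X1, X2]; exact c12
  · rw [X0, X1, X2]; exact c20
  · intro i
    have h6 := unr_rel2 p f q hp hq t v (x * v) (y * v) h1 h3 h5 c01 c12 c20 i
    have e1 : (![1 / u, x / u, y / u] : Fin 3 → Ω) i = (![v, x * v, y * v] : Fin 3 → Ω) i := by
      fin_cases i
      · exact X0
      · exact X1
      · exact X2
    rw [e1]
    exact h6
  · rw [X0]; exact hv0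
  · -- the degree relation
    have hN : y ^ (q ^ 5) + y - x ^ (q ^ 5) * x =
        Δ ^ (q ^ 3) * Δ ^ (q ^ 2) + Δ ^ (q ^ 3) * Δ + Δ ^ q * Δ := by
      rw [D1, D2, D3, hΔ]
      linear_combination y5 - y4 + y3 - y2 + y1
    have l1 : q ≤ q ^ 3 := by
      calc q = q ^ 1 := (pow_one q).symm
        _ ≤ q ^ 3 := Nat.pow_le_pow_right (by omega) (by norm_num)
    have l2 : q + 1 ≤ q ^ 3 + q ^ 2 := by
      have : 1 ≤ q ^ 2 := Nat.one_le_pow _ _ (by omega)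
      omega
    have l3 : q ^ 3 ≤ q ^ 5 := Nat.pow_le_pow_right (by omega) (by norm_num)
    have hN2 : Δ ^ (q ^ 3) * Δ ^ (q ^ 2) + Δ ^ (q ^ 3) * Δ + Δ ^ q * Δ =
        Δ ^ (q + 1) * (1 + Δ ^ (q ^ 3 - q) + Δ ^ (q ^ 3 + q ^ 2 - q - 1)) := by
      have e1 : Δ ^ (q + 1) * Δ ^ (q ^ 3 - q) = Δ ^ (q ^ 3) * Δ := by
        rw [← pow_add, ← pow_succ]
        congr 1
        omega
      have e2 : Δ ^ (q + 1) * Δ ^ (q ^ 3 + q ^ 2 - q - 1) = Δ ^ (q ^ 3) * Δ ^ (q ^ 2) := by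
        rw [← pow_add, ← pow_add]
        congr 1
        omega
      rw [mul_add, mul_add, e1, e2, pow_succ]
      ring
    have hee : e * (q + 1) = q ^ 3 + 1 := by
      have h8 : (e + q) * (q + 1) = (q ^ 2 + 1) * (q + 1) := by rw [he]
      nlinarith [h8]
    rw [ht', hN, hN2]
    set G : Ω := 1 + Δ ^ (q ^ 3 - q) + Δ ^ (q ^ 3 + q ^ 2 - q - 1) with hG
    have e3 : (Δ ^ (q + 1) * G * (v * v ^ (q ^ 5))) ^ e * Δ ^ (q ^ 5 - q ^ 3) =
        G ^ e * ((v ^ e * Δ) ^ (q ^ 5 + 1)) := by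
      have a1 : (Δ ^ (q + 1)) ^ e = Δ ^ (q ^ 3 + 1) := by
        rw [← pow_mul, mul_comm, hee]
      have a2 : (v * v ^ (q ^ 5)) ^ e = (v ^ e) ^ (q ^ 5 + 1) := by
        rw [← pow_succ', ← pow_mul, ← pow_mul, mul_comm]
      have a3 : Δ ^ (q ^ 3 + 1) * Δ ^ (q ^ 5 - q ^ 3) = Δ ^ (q ^ 5 + 1) := by
        rw [← pow_add]
        congr 1
        omega
      rw [mul_pow, mul_pow, a1, a2, mul_pow (v ^ e), ← a3]
      ring
    rw [e3, hve, one_pow, mul_one]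

end Pool.CND
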